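import Mathlib

/-!
# Falling factorials of `k (k + 1)` are Legendre multiplier sequences

We prove that for every `n ≥ 1` the sequence `m_k (m_k - 1) ⋯ (m_k - n + 1)`, `m_k = k (k + 1)`,
is a Legendre multiplier sequence.

Proof idea.  Write `L_a = (x^2 - 1) D^2 + 2 a x D`.  The operator attached to the sequence is
`∏_{j < n} (L_1 - j)`.  Choose `R` with `(R - 1) R < n ≤ R (R + 1)`.  Pulling the pronic
factors `j = r (r + 1)`, `r < R`, apart one gets the factorisation
`D^R ∘ (x^2 - 1)^R ∘ ∏_{j non-pronic} (L_{R+1} + R (R + 1) - j) ∘ D^R`,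
and `L_a + c` preserves real-rootedness as soon as `0 ≤ c ≤ a^2`.
-/

namespace Pool.Agent.Results.MP_c016d9_an.FallingFactorialsLegendreMS

open Polynomial

/-- `p` is a Legendre polynomial of degree `k` (in some normalisation): a real polynomial of
degree exactly `k` solving `(1 - x^2) y'' - 2 x y' + k (k + 1) y = 0`. -/
def IsLegendre (k : ℕ) (p : ℝ[X]) : Prop :=
  p.degree = k ∧
    (1 - X ^ 2) * derivative (derivative p) - 2 * X * derivative p
      + C ((k : ℝ) * (k + 1)) * p = 0

/-- `p` has only real zeros (the zero polynomial is allowed, as is usual in this subject). -/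
def OnlyRealZeros (p : ℝ[X]) : Prop :=
  p ≠ 0 → ∀ z : ℂ, aeval z p = 0 → z.im = 0

/-- `γ` is a Legendre multiplier sequence: for every choice `P k` of Legendre polynomials (one of
each degree `k`), the linear operator `T` with `T (P k) = γ k • P k` for all `k` maps polynomials
with only real zeros to polynomials with only real zeros. -/
def IsLegendreMultiplierSequence (γ : ℕ → ℝ) : Prop :=
  ∀ P : ℕ → ℝ[X], (∀ k, IsLegendre k (P k)) →
    ∀ T : ℝ[X] →ₗ[ℝ] ℝ[X], (∀ k, T (P k) = γ k • P k) →
      ∀ p : ℝ[X], OnlyRealZeros p → OnlyRealZeros (T p)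

/-! ## Polynomials without zeros in the upper half-plane -/

lemma im_sum_nonpos (t : ℂ) (ht : 0 < t.im) (s : Multiset ℂ) (hs : ∀ r ∈ s, r.im ≤ 0) :
    (s.map fun r => 1 / (t - r)).sum.im ≤ 0 ∧
      (s ≠ 0 → (s.map fun r => 1 / (t - r)).sum.im < 0) := by
  induction s using Multiset.induction_on with
  | empty => simp
  | cons a s ih =>
    have hs' : ∀ r ∈ s, r.im ≤ 0 := fun r hr => hs r (Multiset.mem_cons_of_mem hr)
    have ha : a.im ≤ 0 := hs a (Multiset.mem_cons_self a s)
    obtain ⟨h1, -⟩ := ih hs'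
    have hpos : 0 < (t - a).im := by
      simp only [Complex.sub_im]; linarith
    have hne : t - a ≠ 0 := by
      intro h
      rw [h] at hpos
      simp at hpos
    have h2 : (1 / (t - a)).im < 0 := by
      rw [one_div, Complex.inv_im]
      have : 0 < Complex.normSq (t - a) := Complex.normSq_pos.mpr hne
      apply div_neg_of_neg_of_pos _ this
      linarith
    have h3 : (Multiset.map (fun r => 1 / (t - r)) (a ::ₘ s)).sum.im < 0 := by
      rw [Multiset.map_cons, Multiset.sum_cons, Complex.add_im]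
      linarith
    exact ⟨h3.le, fun _ => h3⟩

/-- If `Q` is a nonconstant complex polynomial without zeros in the open upper half-plane then
`Im (Q'(t) / Q(t)) < 0` there. -/
lemma im_logDeriv_neg {Q : ℂ[X]} (hdeg : 0 < Q.degree)
    (hQ : ∀ z : ℂ, 0 < z.im → Q.eval z ≠ 0) {t : ℂ} (ht : 0 < t.im) :
    (Q.derivative.eval t / Q.eval t).im < 0 := by
  have hQ0 : Q ≠ 0 := by rintro rfl; simp at hdeg
  rw [(IsAlgClosed.splits Q).eval_derivative_div_eval_of_ne_zero (hQ t ht)]
  refine (im_sum_nonpos t ht Q.roots ?_).2 ?_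
  · intro r hr
    by_contra h
    push Not at h
    exact hQ r h ((mem_roots hQ0).mp hr)
  · apply Splits.roots_ne_zero (IsAlgClosed.splits _)
    rwa [← pos_iff_ne_zero, natDegree_pos_iff_degree_pos]

/-- The quadratic stability statement behind the main lemma. -/
lemma quad_ne_zero (a c : ℝ) (ha : 0 ≤ a) (hc : 0 ≤ c) (hca : c ≤ a ^ 2) (z s t : ℂ)
    (hz : 0 < z.im) (hs : 0 ≤ s.im) (ht : 0 ≤ t.im) :
    z ^ 2 - 1 + a * z * (s + t) + c * s * t ≠ 0 := by
  intro h
  obtain ⟨x0, y0⟩ := z
  obtain ⟨x1, y1⟩ := s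
  obtain ⟨x2, y2⟩ := t
  simp only at hz hs ht
  have hre := congrArg Complex.re h
  have him := congrArg Complex.im h
  simp [pow_two] at hre him
  -- real and imaginary parts
  have e1 : x0 ^ 2 + a * x0 * (x1 + x2) + c * (x1 * x2)
      = 1 + (y0 ^ 2 + a * y0 * (y1 + y2) + c * (y1 * y2)) := by linarith
  have e2 : 2 * x0 * y0 + a * (x0 * (y1 + y2) + y0 * (x1 + x2)) + c * (x1 * y2 + x2 * y1) = 0 := by
    linarith
  have hQy : 0 < y0 ^ 2 + a * y0 * (y1 + y2) + c * (y1 * y2) := by positivity
  set β : ℝ := (a ^ 2 - c) / 4 with hβ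
  set γ : ℝ := c / 4 with hγ
  have hβ0 : 0 ≤ β := by rw [hβ]; linarith
  have hγ0 : 0 ≤ γ := by rw [hγ]; linarith
  set Ar : ℝ := x0 + a / 2 * (x1 + x2) with hAr
  set Ai : ℝ := y0 + a / 2 * (y1 + y2) with hAi
  set Br : ℝ := β * (x1 + x2) ^ 2 + γ * (x1 - x2) ^ 2 with hBr
  set Bi : ℝ := β * (y1 + y2) ^ 2 + γ * (y1 - y2) ^ 2 with hBi
  have q1 : Ar ^ 2 - Br = x0 ^ 2 + a * x0 * (x1 + x2) + c * (x1 * x2) := by
    rw [hAr, hBr, hβ, hγ]; ring
  have q2 : Ai ^ 2 - Bi = y0 ^ 2 + a * y0 * (y1 + y2) + c * (y1 * y2) := by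
    rw [hAi, hBi, hβ, hγ]; ring
  have q3 : Ar * Ai = β * ((x1 + x2) * (y1 + y2)) + γ * ((x1 - x2) * (y1 - y2)) := by
    rw [hAr, hAi, hβ, hγ]; linarith
  have hBr0 : 0 ≤ Br := by rw [hBr]; positivity
  have hBi0 : 0 ≤ Bi := by rw [hBi]; positivity
  have cs : (Ar * Ai) ^ 2 ≤ Br * Bi := by
    rw [q3]
    have : Br * Bi - (β * ((x1 + x2) * (y1 + y2)) + γ * ((x1 - x2) * (y1 - y2))) ^ 2
        = β * γ * ((x1 + x2) * (y1 - y2) - (x1 - x2) * (y1 + y2)) ^ 2 := by
      rw [hBr, hBi]; ring
    have h0 : 0 ≤ β * γ * ((x1 + x2) * (y1 - y2) - (x1 - x2) * (y1 + y2)) ^ 2 := by positivity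
    linarith
  have l1 : Br < Ar ^ 2 := by linarith
  have l2 : Bi < Ai ^ 2 := by linarith
  have : Br * Bi < Ar ^ 2 * Ai ^ 2 := by
    calc Br * Bi ≤ Br * Ai ^ 2 := by exact mul_le_mul_of_nonneg_left l2.le hBr0
      _ < Ar ^ 2 * Ai ^ 2 := by
        apply mul_lt_mul_of_pos_right l1
        linarith
  rw [mul_pow] at cs
  exact absurd cs (not_le.mpr this)

/-- Main lemma: `(z^2 - 1) p'' + 2 a z p' + c p` has no zeros in the upper half-plane when
`p` is nonconstant without zeros there and `0 ≤ c ≤ a^2`, `0 < a`. -/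
lemma main_step {p : ℂ[X]} (hdeg : 0 < p.degree) (hp : ∀ z : ℂ, 0 < z.im → p.eval z ≠ 0)
    (a c : ℝ) (ha : 0 < a) (hc : 0 ≤ c) (hca : c ≤ a ^ 2) (z : ℂ) (hz : 0 < z.im) :
    (z ^ 2 - 1) * p.derivative.derivative.eval z + 2 * a * z * p.derivative.eval z
      + c * p.eval z ≠ 0 := by
  intro h0
  have hz0 : z ≠ 0 := by rintro rfl; simp at hz
  have haC : (a : ℂ) ≠ 0 := by exact_mod_cast ha.ne'
  set Q : ℂ[X] := C (z ^ 2 - 1) * p.derivative + C (a * z) * p with hQdef
  have hp0 : p ≠ 0 := by rintro rfl; simp at hdeg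
  -- degree of Q
  have hQdeg : 0 < Q.degree := by
    have h1 : (C (z ^ 2 - 1) * p.derivative).degree < (C ((a : ℂ) * z) * p).degree := by
      rw [degree_C_mul (mul_ne_zero haC hz0)]
      calc (C (z ^ 2 - 1) * p.derivative).degree ≤ p.derivative.degree := by
            rw [degree_mul]
            by_cases hh : z ^ 2 - 1 = 0
            · simp [hh]
            · rw [degree_C hh]; simp
        _ < p.degree := degree_derivative_lt hp0
    rw [hQdef, degree_add_eq_right_of_degree_lt h1, degree_C_mul (mul_ne_zero haC hz0)]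
    exact hdeg
  -- the logarithmic derivative of p
  have hw : ∀ t : ℂ, 0 < t.im → (p.derivative.eval t / p.eval t).im < 0 :=
    fun t ht => im_logDeriv_neg hdeg hp ht
  have inv_im_pos : ∀ w : ℂ, w.im < 0 → 0 < (w⁻¹).im := by
    intro w hw
    have hne : w ≠ 0 := by rintro rfl; simp at hw
    rw [Complex.inv_im]
    exact div_pos (by linarith) (Complex.normSq_pos.mpr hne)
  have hQ : ∀ t : ℂ, 0 < t.im → Q.eval t ≠ 0 := by
    intro t ht hQt
    have hwt := hw t ht
    set w := p.derivative.eval t / p.eval t with hwdef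
    have hw0 : w ≠ 0 := by intro h; rw [h] at hwt; simp at hwt
    have hpt := hp t ht
    have hd : p.derivative.eval t = w * p.eval t := by rw [hwdef]; field_simp
    have : Q.eval t = p.eval t * ((z ^ 2 - 1) * w + a * z) := by
      rw [hQdef]; simp only [eval_add, eval_mul, eval_C]; rw [hd]; ring
    rw [this] at hQt
    have h1 : (z ^ 2 - 1) * w + a * z = 0 := (mul_eq_zero.mp hQt).resolve_left hpt
    apply quad_ne_zero a c ha.le hc hca z w⁻¹ 0 hz (inv_im_pos w hwt).le (by simp)
    have : z ^ 2 - 1 + a * z * (w⁻¹ + 0) + c * w⁻¹ * 0 = ((z ^ 2 - 1) * w + a * z) * w⁻¹ := by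
      field_simp
      ring
    rw [this, h1, zero_mul]
  -- P / Q
  have hwz := hw z hz
  set w := p.derivative.eval z / p.eval z with hwdef
  have hw0 : w ≠ 0 := by intro h; rw [h] at hwz; simp at hwz
  have hpz := hp z hz
  have hd : p.derivative.eval z = w * p.eval z := by rw [hwdef]; field_simp
  have hQz : Q.eval z = p.eval z * ((z ^ 2 - 1) * w + a * z) := by
    rw [hQdef]; simp only [eval_add, eval_mul, eval_C]; rw [hd]; ring
  have hB0 : (z ^ 2 - 1) * w + a * z ≠ 0 := by
    intro h
    apply hQ z hz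
    rw [hQz, h, mul_zero]
  have hlog := im_logDeriv_neg hQdeg hQ hz
  have hQ' : Q.derivative.eval z
      = (z ^ 2 - 1) * p.derivative.derivative.eval z + a * z * p.derivative.eval z := by
    rw [hQdef]; simp only [derivative_add, derivative_mul, derivative_C, zero_mul, zero_add,
      eval_add, eval_mul, eval_C]
  -- set y = - Q'/Q = P/Q
  set y : ℂ := -(Q.derivative.eval z / Q.eval z) with hy
  have hyim : 0 < y.im := by rw [hy, Complex.neg_im]; linarith
  have hy0 : y ≠ 0 := by intro h; rw [h] at hyim; simp at hyim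
  have hyeq : y * ((z ^ 2 - 1) * w + a * z) = c + a * z * w := by
    have h1 : Q.derivative.eval z = -(c * p.eval z + a * z * p.derivative.eval z) := by
      rw [hQ']; linear_combination h0
    have hB0' : w * (z ^ 2 - 1) + a * z ≠ 0 := by rwa [mul_comm w]
    rw [hy, h1, hQz, hd]
    field_simp
  have hs2 : 0 < (-y⁻¹).im := by
    rw [Complex.neg_im, Complex.inv_im]
    have : 0 < Complex.normSq y := Complex.normSq_pos.mpr hy0
    have : (-y.im) / Complex.normSq y < 0 := div_neg_of_neg_of_pos (by linarith) this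
    linarith
  apply quad_ne_zero a c ha.le hc hca z w⁻¹ (-y⁻¹) hz (inv_im_pos w hwz).le hs2.le
  have : z ^ 2 - 1 + a * z * (w⁻¹ + -y⁻¹) + c * w⁻¹ * (-y⁻¹)
      = (y * ((z ^ 2 - 1) * w + a * z) - (c + a * z * w)) * (w⁻¹ * y⁻¹) := by
    field_simp
    ring
  rw [this, hyeq, sub_self, zero_mul]

/-! ## Real polynomials -/

lemma onlyRealZeros_iff (p : ℝ[X]) :
    OnlyRealZeros p ↔ (p ≠ 0 → ∀ z : ℂ, 0 < z.im → (p.map (algebraMap ℝ ℂ)).eval z ≠ 0) := by
  unfold OnlyRealZeros
  refine ⟨fun h hp z hz h0 => ?_, fun h hp z hz => ?_⟩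
  · rw [eval_map_algebraMap] at h0
    exact hz.ne' (h hp z h0)
  · by_contra him
    rcases lt_or_gt_of_ne him with hlt | hgt
    · apply h hp ((starRingEnd ℂ) z) (by simpa using hlt)
      rw [eval_map_algebraMap, aeval_conj, hz, map_zero]
    · apply h hp z hgt
      rw [eval_map_algebraMap, hz]

lemma onlyRealZeros_zero : OnlyRealZeros 0 := fun h => absurd rfl h

lemma OnlyRealZeros.smul {p : ℝ[X]} (hp : OnlyRealZeros p) (a : ℝ) : OnlyRealZeros (a • p) := by
  intro h z hz
  have ha : a ≠ 0 := by rintro rfl; simp at h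
  have hp0 : p ≠ 0 := by rintro rfl; simp at h
  apply hp hp0 z
  simpa [ha] using hz

lemma OnlyRealZeros.mul {p q : ℝ[X]} (hp : OnlyRealZeros p) (hq : OnlyRealZeros q) :
    OnlyRealZeros (p * q) := by
  intro h z hz
  rw [map_mul, mul_eq_zero] at hz
  rcases hz with hz | hz
  · exact hp (left_ne_zero_of_mul h) z hz
  · exact hq (right_ne_zero_of_mul h) z hz

lemma OnlyRealZeros.derivative {p : ℝ[X]} (hp : OnlyRealZeros p) :
    OnlyRealZeros (derivative p) := by
  rw [onlyRealZeros_iff]
  intro h z hz h0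
  have hp0 : p ≠ 0 := by rintro rfl; simp at h
  have hfree := (onlyRealZeros_iff p).mp hp hp0
  have hdeg : 0 < (p.map (algebraMap ℝ ℂ)).degree := by
    rw [degree_map]
    by_contra hle
    push Not at hle
    apply h
    rw [eq_C_of_degree_le_zero hle, derivative_C]
  have := im_logDeriv_neg hdeg hfree hz
  rw [← derivative_map] at h0
  rw [h0] at this
  simp at this

lemma OnlyRealZeros.iterate_derivative {p : ℝ[X]} (hp : OnlyRealZeros p) (n : ℕ) :
    OnlyRealZeros (Polynomial.derivative^[n] p) := by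
  induction n with
  | zero => simpa using hp
  | succ n ih => rw [Function.iterate_succ_apply']; exact ih.derivative

lemma onlyRealZeros_sq_sub_one : OnlyRealZeros (X ^ 2 - 1 : ℝ[X]) := by
  intro _ z hz
  simp only [map_sub, map_pow, aeval_X, map_one] at hz
  have h : (z - 1) * (z + 1) = 0 := by linear_combination hz
  rcases mul_eq_zero.mp h with h | h
  · have : z = 1 := by linear_combination h
    rw [this]; simp
  · have : z = -1 := by linear_combination h
    rw [this]; simp

lemma onlyRealZeros_pow (n : ℕ) : OnlyRealZeros ((X ^ 2 - 1 : ℝ[X]) ^ n) := by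
  induction n with
  | zero => intro _ z hz; simp at hz
  | succ n ih => rw [pow_succ]; exact ih.mul onlyRealZeros_sq_sub_one

/-- The operator `L_a = (x^2 - 1) D^2 + 2 a x D`. -/
noncomputable def L (a : ℝ) : ℝ[X] →ₗ[ℝ] ℝ[X] where
  toFun p := (X ^ 2 - 1) * derivative (derivative p) + C (2 * a) * X * derivative p
  map_add' p q := by simp only [map_add]; ring
  map_smul' c p := by
    rw [derivative_smul, derivative_smul]
    simp only [RingHom.id_apply, smul_eq_C_mul]; ring

lemma L_apply (a : ℝ) (p : ℝ[X]) :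
    L a p = (X ^ 2 - 1) * derivative (derivative p) + C (2 * a) * X * derivative p := rfl

/-- `L_a + c` preserves real-rootedness when `0 ≤ c ≤ a^2`, `0 < a`. -/
lemma OnlyRealZeros.L_add {p : ℝ[X]} (hp : OnlyRealZeros p) (a c : ℝ) (ha : 0 < a) (hc : 0 ≤ c)
    (hca : c ≤ a ^ 2) : OnlyRealZeros (L a p + c • p) := by
  by_cases hdeg : 0 < p.degree
  · rw [onlyRealZeros_iff]
    intro _ z hz
    have hp0 : p ≠ 0 := by rintro rfl; simp at hdeg
    have hfree := (onlyRealZeros_iff p).mp hp hp0
    have hdeg' : 0 < (p.map (algebraMap ℝ ℂ)).degree := by rwa [degree_map]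
    have := main_step hdeg' hfree a c ha hc hca z hz
    convert this using 1
    rw [L_apply]
    simp only [Polynomial.map_add, Polynomial.map_mul, Polynomial.map_sub, Polynomial.map_pow,
      Polynomial.map_smul, map_X, Polynomial.map_one, map_C, eval_add, eval_mul, eval_sub,
      eval_pow, eval_X, eval_one, eval_C, eval_smul, derivative_map, smul_eq_mul]
    simp
  · push Not at hdeg
    have hp' := eq_C_of_degree_le_zero hdeg
    have : L a p = 0 := by rw [L_apply, hp']; simp
    rw [this, zero_add]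
    exact hp.smul c

/-- The composition of the operators `L_a + c`, `c` in a list. -/
noncomputable def M (a : ℝ) (cs : List ℝ) (p : ℝ[X]) : ℝ[X] :=
  cs.foldr (fun c q => L a q + c • q) p

lemma OnlyRealZeros.M {p : ℝ[X]} (hp : OnlyRealZeros p) (a : ℝ) (ha : 0 < a) (cs : List ℝ)
    (hcs : ∀ c ∈ cs, 0 ≤ c ∧ c ≤ a ^ 2) : OnlyRealZeros (M a cs p) := by
  induction cs with
  | nil => exact hp
  | cons c cs ih =>
    have h1 := ih (fun c hc => hcs c (List.mem_cons_of_mem _ hc))
    have h2 := hcs c List.mem_cons_self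
    exact h1.L_add a c ha h2.1 h2.2

lemma M_add (a : ℝ) (cs : List ℝ) (p q : ℝ[X]) : M a cs (p + q) = M a cs p + M a cs q := by
  induction cs with
  | nil => rfl
  | cons c cs ih =>
    change L a (M a cs (p + q)) + c • (M a cs (p + q)) =
      (L a (M a cs p) + c • (M a cs p)) + (L a (M a cs q) + c • (M a cs q))
    rw [ih, map_add, smul_add]; abel

lemma M_smul (a : ℝ) (cs : List ℝ) (r : ℝ) (p : ℝ[X]) : M a cs (r • p) = r • M a cs p := by
  induction cs with
  | nil => rfl
  | cons c cs ih =>
    change L a (M a cs (r • p)) + c • (M a cs (r • p)) = r • (L a (M a cs p) + c • (M a cs p))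
    rw [ih, map_smul, smul_add, smul_comm]

lemma M_eigen (a : ℝ) (cs : List ℝ) (p : ℝ[X]) (ev : ℝ) (h : L a p = ev • p) :
    M a cs p = (cs.map fun c => ev + c).prod • p := by
  induction cs with
  | nil => simp [M]
  | cons c cs ih =>
    change L a (M a cs p) + c • (M a cs p) = _
    rw [ih, map_smul, h, List.map_cons, List.prod_cons, ← smul_assoc, ← smul_assoc, ← add_smul]
    congr 1
    simp only [smul_eq_mul]; ring

/-- The composite operator `D^R ∘ (x^2 - 1)^R ∘ ∏ (L_{R+1} + c) ∘ D^R`. -/
noncomputable def T (R : ℕ) (cs : List ℝ) : ℝ[X] →ₗ[ℝ] ℝ[X] where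
  toFun p := derivative^[R] ((X ^ 2 - 1) ^ R * M (R + 1) cs (derivative^[R] p))
  map_add' p q := by
    rw [iterate_map_add, M_add, mul_add, iterate_map_add]
  map_smul' r p := by
    rw [Polynomial.iterate_derivative_smul, M_smul, mul_smul_comm,
      Polynomial.iterate_derivative_smul, RingHom.id_apply]

lemma T_apply (R : ℕ) (cs : List ℝ) (p : ℝ[X]) :
    T R cs p = derivative^[R] ((X ^ 2 - 1) ^ R * M (R + 1) cs (derivative^[R] p)) := rfl

lemma OnlyRealZeros.T {p : ℝ[X]} (hp : OnlyRealZeros p) (R : ℕ) (cs : List ℝ)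
    (hcs : ∀ c ∈ cs, 0 ≤ c ∧ c ≤ ((R : ℝ) + 1) ^ 2) : OnlyRealZeros (T R cs p) := by
  rw [T_apply]
  apply OnlyRealZeros.iterate_derivative
  apply (onlyRealZeros_pow R).mul
  exact (hp.iterate_derivative R).M _ (by positivity) cs hcs

/-! ## The action on Legendre polynomials -/

lemma intertwine (a : ℝ) (p : ℝ[X]) :
    derivative (L a p) = L (a + 1) (derivative p) + (2 * a) • derivative p := by
  rw [L_apply, L_apply]
  simp only [derivative_mul, derivative_sub, derivative_X_pow, derivative_one,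
    derivative_C, derivative_X, smul_eq_C_mul, map_add, map_mul, map_one, map_ofNat,
    Nat.cast_ofNat, derivative_ofNat]
  ring

lemma L_iterate_derivative (R : ℕ) (p : ℝ[X]) (m : ℝ) (h : L 1 p = m • p) :
    L (R + 1) (derivative^[R] p) = (m - R * (R + 1)) • derivative^[R] p := by
  induction R with
  | zero => simpa using h
  | succ R ih =>
    rw [Function.iterate_succ_apply']
    have h1 := intertwine (R + 1) (derivative^[R] p)
    rw [ih, derivative_smul] at h1
    push_cast
    have h2 : L (↑R + 1 + 1) (derivative (derivative^[R] p))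
        = (m - ↑R * (↑R + 1)) • derivative (derivative^[R] p)
          - (2 * (↑R + 1) : ℝ) • derivative (derivative^[R] p) := by
      rw [h1]; abel
    rw [h2, ← sub_smul]
    congr 1
    ring

lemma S_eigen (R : ℕ) (p : ℝ[X]) (m : ℝ) (h : L 1 p = m • p) :
    derivative^[R] ((X ^ 2 - 1) ^ R * derivative^[R] p)
      = (∏ r ∈ Finset.range R, (m - r * (r + 1))) • p := by
  induction R with
  | zero => simp
  | succ R ih =>
    have key : derivative ((X ^ 2 - 1) ^ (R + 1) * derivative (derivative^[R] p))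
        = (X ^ 2 - 1) ^ R * L (R + 1) (derivative^[R] p) := by
      rw [L_apply, derivative_mul, derivative_pow]
      simp only [derivative_sub, derivative_X_pow, derivative_one, map_mul, map_add,
        Nat.cast_add, Nat.cast_one, map_ofNat, map_one, map_natCast, Nat.cast_ofNat,
        add_tsub_cancel_right]
      ring
    rw [Function.iterate_succ_apply' (f := derivative) (n := R) (x := p),
      Function.iterate_succ_apply, key, L_iterate_derivative R p m h, mul_smul_comm,
      Polynomial.iterate_derivative_smul, ih, Finset.prod_range_succ, ← smul_assoc, smul_eq_mul,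
      mul_comm]

lemma T_eigen (R : ℕ) (cs : List ℝ) (p : ℝ[X]) (m : ℝ) (h : L 1 p = m • p) :
    T R cs p = ((∏ r ∈ Finset.range R, (m - r * (r + 1))) *
      (cs.map fun c => m - R * (R + 1) + c).prod) • p := by
  rw [T_apply, M_eigen _ _ _ _ (L_iterate_derivative R p m h), mul_smul_comm,
    Polynomial.iterate_derivative_smul, S_eigen R p m h, ← smul_assoc, smul_eq_mul, mul_comm]

lemma isLegendre_L {k : ℕ} {p : ℝ[X]} (h : IsLegendre k p) : L 1 p = ((k : ℝ) * (k + 1)) • p := by
  rw [L_apply, smul_eq_C_mul]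
  have := h.2
  simp only [mul_one, map_ofNat]
  linear_combination -this

/-! ## Sanity check: Legendre polynomials of every degree exist (Rodrigues) -/

lemma L_iterate_derivative' (j : ℕ) (a : ℝ) (p : ℝ[X]) (m : ℝ) (h : L a p = m • p) :
    L (a + j) (derivative^[j] p) = (m - j * (2 * a + j - 1)) • derivative^[j] p := by
  induction j with
  | zero => simpa using h
  | succ j ih =>
    rw [Function.iterate_succ_apply']
    have h1 := intertwine (a + j) (derivative^[j] p)
    rw [ih, derivative_smul] at h1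
    push_cast
    have h2 : L (a + (↑j + 1)) (derivative (derivative^[j] p))
        = (m - ↑j * (2 * a + ↑j - 1)) • derivative (derivative^[j] p)
          - (2 * (a + ↑j) : ℝ) • derivative (derivative^[j] p) := by
      rw [h1, ← add_assoc]; abel
    rw [h2, ← sub_smul]
    congr 1
    ring

/-- The Rodrigues polynomial `D^k (x^2 - 1)^k` is a Legendre polynomial of degree `k`; in
particular the hypotheses in `IsLegendreMultiplierSequence` can be met. -/
lemma isLegendre_rodrigues (k : ℕ) : IsLegendre k (derivative^[k] ((X ^ 2 - 1 : ℝ[X]) ^ k)) := by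
  have hmonic : ((X ^ 2 - 1 : ℝ[X]) ^ k).Monic := by
    apply Monic.pow
    rw [← C_1]
    exact monic_X_pow_sub_C 1 two_ne_zero
  have hnat : ((X ^ 2 - 1 : ℝ[X]) ^ k).natDegree = k + k := by
    rw [natDegree_pow, ← C_1, natDegree_X_pow_sub_C]; ring
  have hL : L (1 - k) ((X ^ 2 - 1 : ℝ[X]) ^ k) = (2 * k : ℝ) • (X ^ 2 - 1 : ℝ[X]) ^ k := by
    have h1 : (X ^ 2 - 1 : ℝ[X]) * derivative ((X ^ 2 - 1 : ℝ[X]) ^ k)
        = C (2 * k : ℝ) * X * (X ^ 2 - 1 : ℝ[X]) ^ k := by
      rcases k with _ | k
      · simp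
      · rw [derivative_pow]
        simp only [derivative_sub, derivative_X_pow, derivative_one, map_mul, map_add,
          Nat.cast_add, Nat.cast_one, map_ofNat, map_one, map_natCast, Nat.cast_ofNat,
          add_tsub_cancel_right]
        ring
    have h2 := congrArg derivative h1
    simp only [derivative_mul, derivative_sub, derivative_X_pow, derivative_one, derivative_C,
      derivative_X, Nat.cast_ofNat, map_ofNat] at h2
    rw [L_apply, smul_eq_C_mul]
    simp only [map_mul, map_sub, map_one, map_ofNat, map_natCast] at h2 ⊢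
    linear_combination h2
  constructor
  · apply le_antisymm
    · apply degree_le_of_natDegree_le
      refine (natDegree_iterate_derivative _ _).trans ?_
      rw [hnat]; omega
    · apply le_degree_of_ne_zero
      rw [coeff_iterate_derivative]
      have : ((X ^ 2 - 1 : ℝ[X]) ^ k).coeff (k + k) = 1 := by
        rw [← hnat]; exact hmonic.coeff_natDegree
      rw [this, nsmul_eq_mul, mul_one]
      have : (k + k).descFactorial k ≠ 0 := by
        rw [Ne, Nat.descFactorial_eq_zero_iff_lt]; omega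
      exact_mod_cast this
  · have h3 := L_iterate_derivative' k (1 - k) _ _ hL
    rw [L_apply, smul_eq_C_mul] at h3
    have h4 : (1 - (k : ℝ) + k) = 1 := by ring
    have h5 : (2 * (k : ℝ) - k * (2 * (1 - k) + k - 1)) = k * (k + 1) := by ring
    rw [h4, h5, mul_one, map_ofNat] at h3
    linear_combination -h3

/-- The set of non-pronic numbers below `n`, for `R` with `(R - 1) R < n ≤ R (R + 1)`. -/
def J (n R : ℕ) : Finset ℕ := Finset.range n \ (Finset.range R).image (fun r => r * (r + 1))

lemma prod_split (n R : ℕ) (h1 : ∀ r < R, r * (r + 1) < n) (m : ℝ) :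
    ∏ j ∈ Finset.range n, (m - j)
      = (∏ r ∈ Finset.range R, (m - r * (r + 1))) * ∏ j ∈ J n R, (m - j) := by
  have hsub : (Finset.range R).image (fun r => r * (r + 1)) ⊆ Finset.range n := by
    intro j hj
    simp only [Finset.mem_image, Finset.mem_range] at hj ⊢
    obtain ⟨r, hr, rfl⟩ := hj
    exact h1 r hr
  have himg : ∏ r ∈ Finset.range R, (m - (r : ℝ) * ((r : ℝ) + 1))
      = ∏ j ∈ (Finset.range R).image (fun r : ℕ => r * (r + 1)), (m - ((j : ℕ) : ℝ)) := by
    rw [Finset.prod_image]
    · apply Finset.prod_congr rfl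
      intro r _
      push_cast
      ring
    · intro x _ y _ hxy
      replace hxy : x * (x + 1) = y * (y + 1) := hxy
      rcases lt_trichotomy x y with h | h | h
      · exfalso
        have : x * (x + 1) < y * (y + 1) := by nlinarith
        exact absurd hxy this.ne
      · exact h
      · exfalso
        have : y * (y + 1) < x * (x + 1) := by nlinarith
        exact absurd hxy this.ne'
  rw [himg, mul_comm, J, Finset.prod_sdiff hsub]

lemma exists_R (n : ℕ) :
    ∃ R : ℕ, n ≤ R * (R + 1) ∧ ∀ r < R, r * (r + 1) < n := by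
  have hex : ∃ R : ℕ, n ≤ R * (R + 1) := ⟨n, by nlinarith⟩
  classical
  refine ⟨Nat.find hex, Nat.find_spec hex, fun r hr => ?_⟩
  have := Nat.find_min hex hr
  omega

/-- **Main theorem.** For every `n ≥ 1` the sequence
`m_k (m_k - 1) ⋯ (m_k - n + 1)`, `m_k = k (k + 1)`, is a Legendre multiplier sequence. -/
theorem result : ∀ n : ℕ, 1 ≤ n →
    IsLegendreMultiplierSequence
      (fun k => ∏ j ∈ Finset.range n, ((k : ℝ) * (k + 1) - j)) := by
  intro n _ P hP Γ hΓ p hp
  obtain ⟨R, hR1, hR2⟩ := exists_R n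
  set cs : List ℝ := (J n R).toList.map (fun j : ℕ => (R : ℝ) * (R + 1) - (j : ℝ)) with hcs
  have hT : ∀ k, T R cs (P k) = (∏ j ∈ Finset.range n, ((k : ℝ) * (k + 1) - j)) • P k := by
    intro k
    rw [T_eigen R cs (P k) _ (isLegendre_L (hP k)), prod_split n R hR2]
    congr 2
    rw [hcs, List.map_map, ← Finset.prod_map_toList]
    congr 1
    apply List.map_congr_left
    intro j _
    simp only [Function.comp]
    ring
  -- the operator is determined by its values on the Legendre basis
  let S : Polynomial.Sequence ℝ := ⟨P, fun k => (hP k).1⟩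
  have hspan : ∀ q : ℝ[X], Γ q = T R cs q := by
    have : Γ = T R cs := by
      have hunit : ∀ i, IsUnit (S i).leadingCoeff := fun i =>
        (leadingCoeff_ne_zero.mpr (S.ne_zero i)).isUnit
      apply (S.basis hunit).ext
      intro k
      simp only [Polynomial.Sequence.basis_eq_self]
      change Γ (P k) = T R cs (P k)
      rw [hΓ k, hT k]
    intro q
    rw [this]
  rw [hspan p]
  apply hp.T R cs
  intro c hc
  rw [hcs, List.mem_map] at hc
  obtain ⟨j, hj, rfl⟩ := hc
  rw [Finset.mem_toList, J, Finset.mem_sdiff, Finset.mem_range] at hj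
  have hjR : (j : ℝ) ≤ (R : ℝ) * (R + 1) := by
    have : j ≤ R * (R + 1) := by omega
    exact_mod_cast this
  have hj0 : (0 : ℝ) ≤ (j : ℝ) := Nat.cast_nonneg j
  constructor
  · linarith
  · nlinarith [(Nat.cast_nonneg R : (0 : ℝ) ≤ R)]

end Pool.Agent.Results.MP_c016d9_an.FallingFactorialsLegendreMS
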